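import Mathlib
import Pool.Agent.U892.PD.Stm

set_option autoImplicit false

/-!
Project PD, package CROSS: crossing data exist at every point.
-/

open Filter Topology Set
open scoped ContDiff

namespace Pool.Agent.U941.PD

open Pool.Agent.U892.PD

theorem key (G : ℝ × ℝ → ℝ) (ξ : ℝ × ℝ → ℝ) (xa xb : (ℝ × ℝ) × ℝ → ℝ) (C ρ Xa Xb : ℝ)
    (ca : ContinuousAt xa ((0, 0), C)) (cb : ContinuousAt xb ((0, 0), C))
    (cξ : ContinuousAt ξ (0, 0)) (va : xa ((0, 0), C) = Xa) (vb : xb ((0, 0), C) = Xb)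
    (vξ : ξ (0, 0) = 0) (ha : 0 < Xa) (hb : Xb < 0) (hra : |Xa| < ρ) (hrb : |Xb| < ρ)
    (qa : ∀ᶠ z in 𝓝 (((0, 0), C) : (ℝ × ℝ) × ℝ), G (xa z, z.1.1 + z.1.2 * xa z) = z.2)
    (qb : ∀ᶠ z in 𝓝 (((0, 0), C) : (ℝ × ℝ) × ℝ), G (xb z, z.1.1 + z.1.2 * xb z) = z.2)
    (hM : ∀ᶠ a in 𝓝 ((0, 0) : ℝ × ℝ), ∃ m : ℝ, ∀ s t : ℝ, 0 < s → s < ρ → 0 < t → t < ρ →
      G ((ξ a, a.1 + a.2 * ξ a) + s • (1, a.2)) = G ((ξ a, a.1 + a.2 * ξ a) - t • (1, a.2)) →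
        1 / s - 1 / t = m) :
    ∀ᶠ z in 𝓝 (((0, 0), C) : (ℝ × ℝ) × ℝ),
      (xa z - ξ z.1 ≠ 0 ∧ xb z - ξ z.1 ≠ 0) ∧
      1 / (xa z - ξ z.1) + 1 / (xb z - ξ z.1) =
        1 / (xa (z.1, C) - ξ z.1) + 1 / (xb (z.1, C) - ξ z.1) := by
  have hξ1 : ContinuousAt (fun z : (ℝ × ℝ) × ℝ => ξ z.1) ((0, 0), C) :=
    ContinuousAt.comp (g := ξ) (f := fun z : (ℝ × ℝ) × ℝ => z.1) cξ continuousAt_fst
  have hA : ContinuousAt (fun z : (ℝ × ℝ) × ℝ => xa z - ξ z.1) ((0, 0), C) := ca.sub hξ1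
  have hB : ContinuousAt (fun z : (ℝ × ℝ) × ℝ => ξ z.1 - xb z) ((0, 0), C) := hξ1.sub cb
  rw [abs_of_pos ha] at hra
  rw [abs_of_neg hb] at hrb
  have hA' : ∀ᶠ z in 𝓝 (((0, 0), C) : (ℝ × ℝ) × ℝ), xa z - ξ z.1 ∈ Ioo 0 ρ :=
    hA.eventually_mem (Ioo_mem_nhds (by simp only [va, vξ]; linarith)
      (by simp only [va, vξ]; linarith))
  have hB' : ∀ᶠ z in 𝓝 (((0, 0), C) : (ℝ × ℝ) × ℝ), ξ z.1 - xb z ∈ Ioo 0 ρ :=
    hB.eventually_mem (Ioo_mem_nhds (by simp only [vb, vξ]; linarith)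
      (by simp only [vb, vξ]; linarith))
  have hE := (qa.and qb).and (hA'.and hB')
  have hpr : Tendsto (fun z : (ℝ × ℝ) × ℝ => (z.1, C)) (𝓝 ((0, 0), C)) (𝓝 ((0, 0), C)) := by
    have : ContinuousAt (fun z : (ℝ × ℝ) × ℝ => (z.1, C)) ((0, 0), C) :=
      continuousAt_fst.prodMk continuousAt_const
    exact this
  have hE2 := hpr.eventually hE
  have hfst : Tendsto (fun z : (ℝ × ℝ) × ℝ => z.1) (𝓝 ((0, 0), C)) (𝓝 (0, 0)) :=
    continuousAt_fst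
  have hM2 := hfst.eventually hM
  filter_upwards [hE, hE2, hM2] with z h1 h2 h3
  obtain ⟨m, hm⟩ := h3
  have main : ∀ z' : (ℝ × ℝ) × ℝ, z'.1 = z.1 →
      (G (xa z', z'.1.1 + z'.1.2 * xa z') = z'.2 ∧ G (xb z', z'.1.1 + z'.1.2 * xb z') = z'.2) ∧
        xa z' - ξ z'.1 ∈ Ioo 0 ρ ∧ ξ z'.1 - xb z' ∈ Ioo 0 ρ →
      1 / (xa z' - ξ z.1) + 1 / (xb z' - ξ z.1) = m := by
    intro z' hz' h
    rw [hz'] at h
    obtain ⟨⟨k1, k2⟩, k3, k4⟩ := h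
    have h5 := hm (xa z' - ξ z.1) (ξ z.1 - xb z') k3.1 k3.2 k4.1 k4.2 (by
      have w1 : ((ξ z.1, z.1.1 + z.1.2 * ξ z.1) + (xa z' - ξ z.1) • ((1 : ℝ), z.1.2)) =
          (xa z', z.1.1 + z.1.2 * xa z') := by
        ext
        · simp
        · simp
          ring
      have w2 : ((ξ z.1, z.1.1 + z.1.2 * ξ z.1) - (ξ z.1 - xb z') • ((1 : ℝ), z.1.2)) =
          (xb z', z.1.1 + z.1.2 * xb z') := by
        ext
        · simp
        · simp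
          ring
      rw [w1, w2, k1, k2])
    rw [← h5, show xb z' - ξ z.1 = -(ξ z.1 - xb z') by ring, div_neg]
    ring
  have m1 := main z rfl h1
  have m2 := main (z.1, C) rfl h2
  refine ⟨⟨h1.2.1.1.ne', ?_⟩, ?_⟩
  · have := h1.2.2.1
    intro h0
    linarith
  · rw [m1]
    exact m2.symm

theorem t_CROSS : S_IMP → S_TAN → S_FRAME → S_CROSS := by
  intro hI hT hF Ω F hFol hProj q hq
  obtain ⟨o, u, w, X₁, X₂, hb, hoq, hX, h12, c0, c1, c2, t0, t2, hneg, ρ, hρ1, hρ2, hP⟩ :=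
    hF Ω F hFol hProj q hq
  set G := coord F o u w with hG
  have e1 : G (X₁, 0) = F q := by
    rw [hG]
    simp [coord, ← hoq]
  have e2 : G (X₂, 0) = F q := h12.symm.trans e1
  have g1 : fderiv ℝ G (X₁, 0) (1, 0) ≠ 0 := by
    intro h
    rw [h, zero_mul] at hneg
    exact lt_irrefl _ hneg
  have g2 : fderiv ℝ G (X₂, 0) (1, 0) ≠ 0 := by
    intro h
    rw [h, mul_zero] at hneg
    exact lt_irrefl _ hneg
  obtain ⟨x₁, s1, v1, q1, b1, d1, p1⟩ := hI G X₁ c1 g1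
  obtain ⟨x₂, s2, v2, q2, b2, d2, -⟩ := hI G X₂ c2 g2
  rw [e1] at s1 v1 q1 b1 d1
  rw [e2] at s2 v2 q2 b2 d2
  obtain ⟨ξ, sξ, vξ, hξ⟩ := hT G c0 t0 t2
  have hM : ∀ᶠ a in 𝓝 ((0, 0) : ℝ × ℝ), ∃ m : ℝ, ∀ s t : ℝ, 0 < s → s < ρ → 0 < t → t < ρ →
      G ((ξ a, a.1 + a.2 * ξ a) + s • (1, a.2)) = G ((ξ a, a.1 + a.2 * ξ a) - t • (1, a.2)) →
        1 / s - 1 / t = m := by
    have hc : ContinuousAt (fun a : ℝ × ℝ => (((ξ a, a.1 + a.2 * ξ a), a.2) : (ℝ × ℝ) × ℝ))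
        (0, 0) :=
      (sξ.continuousAt.prodMk (continuousAt_fst.add
        (continuousAt_snd.mul sξ.continuousAt))).prodMk continuousAt_snd
    have hc' : Tendsto (fun a : ℝ × ℝ => (((ξ a, a.1 + a.2 * ξ a), a.2) : (ℝ × ℝ) × ℝ))
        (𝓝 (0, 0)) (𝓝 ((0, 0), 0)) := by
      have h := hc.tendsto
      simpa [vξ] using h
    filter_upwards [hc'.eventually hP, hξ] with a h1 h2
    exact h1 h2
  have hX1 : X₁ ≠ 0 := by
    rintro rfl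
    simp at hX
  have hX2 : X₂ ≠ 0 := by
    rintro rfl
    simp at hX
  have hK : ∀ᶠ z in 𝓝 (((0, 0), F q) : (ℝ × ℝ) × ℝ),
      (x₁ z - ξ z.1 ≠ 0 ∧ x₂ z - ξ z.1 ≠ 0) ∧
      1 / (x₁ z - ξ z.1) + 1 / (x₂ z - ξ z.1) =
        1 / (x₁ (z.1, F q) - ξ z.1) + 1 / (x₂ (z.1, F q) - ξ z.1) := by
    rcases lt_or_gt_of_ne hX1 with h | h
    · have h2 : 0 < X₂ := by
        by_contra h2
        have := mul_nonneg_of_nonpos_of_nonpos h.le (not_lt.1 h2)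
        linarith
      have := key G ξ x₂ x₁ (F q) ρ X₂ X₁ s2.continuousAt s1.continuousAt sξ.continuousAt v2 v1 vξ
        h2 h hρ2 hρ1 q2 q1 hM
      filter_upwards [this] with z hz
      refine ⟨hz.1.symm, ?_⟩
      linarith [hz.2]
    · have h2 : X₂ < 0 := by
        by_contra h2
        have := mul_nonneg h.le (not_lt.1 h2)
        linarith
      exact key G ξ x₁ x₂ (F q) ρ X₁ X₂ s1.continuousAt s2.continuousAt sξ.continuousAt v1 v2 vξ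
        h h2 hρ1 hρ2 q1 q2 hM
  set κ : ℝ × ℝ → ℝ := fun a => 1 / (x₁ (a, F q) - ξ a) + 1 / (x₂ (a, F q) - ξ a) with hκ
  have r1 : ContDiffAt ℝ 20 (fun a : ℝ × ℝ => x₁ (a, F q)) (0, 0) :=
    ContDiffAt.comp (g := x₁) (f := fun a : ℝ × ℝ => (a, F q)) (0, 0) s1
      (contDiffAt_id.prodMk contDiffAt_const)
  have r2 : ContDiffAt ℝ 20 (fun a : ℝ × ℝ => x₂ (a, F q)) (0, 0) :=
    ContDiffAt.comp (g := x₂) (f := fun a : ℝ × ℝ => (a, F q)) (0, 0) s2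
      (contDiffAt_id.prodMk contDiffAt_const)
  have sκ : ContDiffAt ℝ 20 κ (0, 0) := by
    refine (contDiffAt_const.div (r1.sub sξ) ?_).add (contDiffAt_const.div (r2.sub sξ) ?_)
    · show x₁ ((0, 0), F q) - ξ (0, 0) ≠ 0
      rw [v1, vξ, sub_zero]
      exact hX1
    · show x₂ ((0, 0), F q) - ξ (0, 0) ≠ 0
      rw [v2, vξ, sub_zero]
      exact hX2
  have sD : ContDiffAt ℝ 20 (fun a => 1 + κ a * ξ a) (0, 0) :=
    contDiffAt_const.add (sκ.mul sξ)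
  have hD0 : 1 + κ (0, 0) * ξ (0, 0) ≠ 0 := by
    rw [vξ, mul_zero, add_zero]
    exact one_ne_zero
  refine ⟨o, u, w, x₁, x₂, fun a => κ a / (1 + κ a * ξ a),
    fun a => (2 * ξ a + κ a * ξ a ^ 2) / (1 + κ a * ξ a), ?_⟩
  refine ⟨hb, s1, s2, sκ.div sD hD0, ?_, ?_, ?_, b1, b2, ?_, ?_, ?_, ?_⟩
  · exact ((contDiffAt_const.mul sξ).add (sκ.mul (sξ.pow 2))).div sD hD0
  · simp [vξ]
  · rw [v1]
    exact hoq
  · have hD : ∀ᶠ z in 𝓝 (((0, 0), F q) : (ℝ × ℝ) × ℝ), 1 + κ z.1 * ξ z.1 ≠ 0 := by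
      have hfst : Tendsto (fun z : (ℝ × ℝ) × ℝ => z.1) (𝓝 ((0, 0), F q)) (𝓝 (0, 0)) :=
        continuousAt_fst
      exact hfst.eventually (sD.continuousAt.eventually_ne hD0)
    filter_upwards [hK, hD] with z hz hd
    obtain ⟨⟨n1, n2⟩, h3⟩ := hz
    have h4 : 1 / (x₁ z - ξ z.1) + 1 / (x₂ z - ξ z.1) = κ z.1 := h3
    rw [div_add_div _ _ n1 n2, div_eq_iff (mul_ne_zero n1 n2)] at h4
    show x₁ z + x₂ z = κ z.1 / (1 + κ z.1 * ξ z.1) * (x₁ z * x₂ z) +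
      (2 * ξ z.1 + κ z.1 * ξ z.1 ^ 2) / (1 + κ z.1 * ξ z.1)
    field_simp
    linear_combination h4
  · rw [v1, v2]
    intro h
    rw [h] at hX
    nlinarith [sq_nonneg X₂]
  · have f1 : DifferentiableAt ℝ x₁ ((0, 0), F q) := s1.differentiableAt (by norm_num)
    have f2 : DifferentiableAt ℝ x₂ ((0, 0), F q) := s2.differentiableAt (by norm_num)
    rw [fderiv_fun_mul f1 f2]
    simp only [ContinuousLinearMap.add_apply, ContinuousLinearMap.smul_apply, smul_eq_mul]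
    rw [v1, v2]
    set D1 := fderiv ℝ x₁ ((0, 0), F q) ((0, 0), 1)
    set D2 := fderiv ℝ x₂ ((0, 0), F q) ((0, 0), 1)
    set G1 := fderiv ℝ G (X₁, 0) (1, 0)
    set G2 := fderiv ℝ G (X₂, 0) (1, 0)
    intro h
    have h1 : X₁ * G1 + X₂ * G2 = 0 := by
      have : X₁ * D2 * (G1 * G2) + X₂ * D1 * (G1 * G2) = 0 := by
        linear_combination (G1 * G2) * h
      linear_combination this - X₁ * G1 * d2 - X₂ * G2 * d1
    have h2 : X₁ * G1 = -(X₂ * G2) := by linarith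
    have h3 : (X₁ * G1) * (X₂ * G2) = -(X₂ * G2) ^ 2 := by rw [h2]; ring
    have h4 : 0 < (X₁ * X₂) * (G1 * G2) := mul_pos_of_neg_of_neg hX hneg
    nlinarith [sq_nonneg (X₂ * G2)]
  · rw [v1]
    exact p1

end Pool.Agent.U941.PD
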